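import Mathlib

set_option autoImplicit false

namespace Pool.Agent.Results.MP_de3f1f_gt.Shift

open MeasureTheory Metric Finset Pointwise

/-- The zonotope `[o,p_0] + ... + [o,p_d]`. -/
def zono {d : ℕ} (p : Fin (d + 1) → EuclideanSpace ℝ (Fin d)) : Set (EuclideanSpace ℝ (Fin d)) :=
  {z | ∃ l : Fin (d + 1) → ℝ, (∀ i, 0 ≤ l i ∧ l i ≤ 1) ∧ z = ∑ i, l i • p i}

/-- Rhombic dodecahedron: a translate of a full-dimensional zonotope with `d+1` generators. -/
def IsRhombic {d : ℕ} (Z : Set (EuclideanSpace ℝ (Fin d))) : Prop :=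
  ∃ (t : EuclideanSpace ℝ (Fin d)) (p : Fin (d + 1) → EuclideanSpace ℝ (Fin d)),
    Submodule.span ℝ (Set.range p) = ⊤ ∧ Z = t +ᵥ zono p

/-- Regular: the generators are the vertices of a regular simplex centred at the origin. -/
def IsRegular {d : ℕ} (Z : Set (EuclideanSpace ℝ (Fin d))) : Prop :=
  ∃ (t : EuclideanSpace ℝ (Fin d)) (p : Fin (d + 1) → EuclideanSpace ℝ (Fin d)) (e : ℝ),
    0 < e ∧ (∀ i j, i ≠ j → dist (p i) (p j) = e) ∧ ∑ i, p i = 0 ∧ Z = t +ᵥ zono p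

/-- The circumradius. -/
noncomputable def cr {d : ℕ} (Z : Set (EuclideanSpace ℝ (Fin d))) : ℝ :=
  sInf {R | ∃ c, Z ⊆ closedBall c R}

noncomputable def xx (s : ℝ) : Fin 4 → EuclideanSpace ℝ (Fin 3) :=
  ![!₂[1 + s, √2, 0], !₂[1 + s, -√2, 0], !₂[s - 1, 0, √2], !₂[s - 1, 0, -√2]]

lemma c2 {α : Type*} (x y z : α) : (![x, y, z] : Fin 3 → α) 2 = z := rfl
lemma c3 {α : Type*} (x y z w : α) : (![x, y, z, w] : Fin 4 → α) 2 = z := rfl
lemma c4 {α : Type*} (x y z w : α) : (![x, y, z, w] : Fin 4 → α) 3 = w := rfl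

lemma comb (s : ℝ) (l : Fin 4 → ℝ) :
    (∑ i, l i • xx s i) 0 = (1 + s) * (l 0 + l 1) - (1 - s) * (l 2 + l 3) ∧
    (∑ i, l i • xx s i) 1 = √2 * (l 0 - l 1) ∧ (∑ i, l i • xx s i) 2 = √2 * (l 2 - l 3) := by
  simp only [Fin.sum_univ_four, xx, PiLp.add_apply, PiLp.smul_apply, smul_eq_mul]
  simp [c2, c3, c4]
  refine ⟨by ring, by ring, by ring⟩

noncomputable def lo (s : ℝ) (q : ℝ × ℝ) : ℝ :=
  (1 + s) * |q.1 / √2| - (1 - s) * (2 - |q.2 / √2|)
noncomputable def hi (s : ℝ) (q : ℝ × ℝ) : ℝ :=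
  (1 + s) * (2 - |q.1 / √2|) - (1 - s) * |q.2 / √2|

lemma mem_iff (s : ℝ) (h0 : 0 ≤ s) (h1 : s ≤ 1) (z : EuclideanSpace ℝ (Fin 3)) :
    z ∈ zono (xx s) ↔ (|z 1 / √2| ≤ 1 ∧ |z 2 / √2| ≤ 1) ∧
      lo s (z 1, z 2) ≤ z 0 ∧ z 0 ≤ hi s (z 1, z 2) := by
  have hs : (0 : ℝ) < √2 := by positivity
  constructor
  · rintro ⟨l, hl, rfl⟩
    obtain ⟨e0, e1, e2⟩ := comb s l
    simp only [lo, hi]
    rw [e0, e1, e2, mul_div_cancel_left₀ _ hs.ne', mul_div_cancel_left₀ _ hs.ne']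
    have a0 := hl 0
    have a1 := hl 1
    have a2 := hl 2
    have a3 := hl 3
    have b1 : |l 0 - l 1| ≤ l 0 + l 1 := abs_le.2 ⟨by linarith, by linarith⟩
    have b2 : |l 0 - l 1| ≤ 2 - (l 0 + l 1) := abs_le.2 ⟨by linarith, by linarith⟩
    have b3 : |l 2 - l 3| ≤ l 2 + l 3 := abs_le.2 ⟨by linarith, by linarith⟩
    have b4 : |l 2 - l 3| ≤ 2 - (l 2 + l 3) := abs_le.2 ⟨by linarith, by linarith⟩
    refine ⟨⟨by linarith, by linarith⟩, by nlinarith, by nlinarith⟩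
  · rintro ⟨⟨hA, hB⟩, h2, h3⟩
    obtain ⟨θ, θ0, θ1, hθ⟩ : ∃ θ : ℝ, 0 ≤ θ ∧ θ ≤ 1 ∧
        z 0 = lo s (z 1, z 2) + θ * (hi s (z 1, z 2) - lo s (z 1, z 2)) := by
      rcases (h2.trans h3).eq_or_lt with h | h
      · exact ⟨0, le_rfl, zero_le_one, by linarith⟩
      · refine ⟨(z 0 - lo s (z 1, z 2)) / (hi s (z 1, z 2) - lo s (z 1, z 2)),
          div_nonneg (by linarith) (by linarith), (div_le_one (by linarith)).2 (by linarith), ?_⟩
        rw [div_mul_cancel₀ _ (by linarith)]; ring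
    simp only [lo, hi] at hθ
    set A := z 1 / √2 with hA'
    set B := z 2 / √2 with hB'
    have a1 := le_abs_self A
    have a2 := neg_abs_le A
    have a3 := le_abs_self B
    have a4 := neg_abs_le B
    have p1 : 0 ≤ θ * (1 - |A|) := mul_nonneg θ0 (by linarith)
    have p2 : θ * (1 - |A|) ≤ 1 - |A| := by nlinarith
    have p3 : 0 ≤ θ * (1 - |B|) := mul_nonneg θ0 (by linarith)
    have p4 : θ * (1 - |B|) ≤ 1 - |B| := by nlinarith
    refine ⟨![(|A| + A) / 2 + θ * (1 - |A|), (|A| - A) / 2 + θ * (1 - |A|),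
      (2 - |B| + B) / 2 - θ * (1 - |B|), (2 - |B| - B) / 2 - θ * (1 - |B|)], ?_, ?_⟩
    · intro i
      fin_cases i <;> simp <;> constructor <;> linarith
    · obtain ⟨e0, e1, e2⟩ := comb s ![(|A| + A) / 2 + θ * (1 - |A|), (|A| - A) / 2 + θ * (1 - |A|),
        (2 - |B| + B) / 2 - θ * (1 - |B|), (2 - |B| - B) / 2 - θ * (1 - |B|)]
      ext i
      fin_cases i
      · refine Eq.trans ?_ e0.symm
        simp only [Matrix.cons_val_zero, Matrix.cons_val_one, c3, c4]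
        show z 0 = _
        rw [hθ]; ring
      · refine Eq.trans ?_ e1.symm
        simp only [Matrix.cons_val_zero, Matrix.cons_val_one]
        show z 1 = _
        have : z 1 = √2 * A := by rw [hA']; field_simp
        rw [this]; ring
      · refine Eq.trans ?_ e2.symm
        simp only [c3, c4]
        show z 2 = _
        have : z 2 = √2 * B := by rw [hB']; field_simp
        rw [this]; ring

noncomputable def sq : Set (ℝ × ℝ) := {q | |q.1 / √2| ≤ 1 ∧ |q.2 / √2| ≤ 1}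

lemma sq_meas : MeasurableSet sq := by
  apply IsClosed.measurableSet
  have h1 : IsClosed {q : ℝ × ℝ | |q.1 / √2| ≤ 1} := isClosed_le (by fun_prop) continuous_const
  have h2 : IsClosed {q : ℝ × ℝ | |q.2 / √2| ≤ 1} := isClosed_le (by fun_prop) continuous_const
  exact h1.inter h2

noncomputable def II : ENNReal := ∫⁻ q in sq, ENNReal.ofReal (2 - 2 * |q.1 / √2|)

lemma vol (s : ℝ) (h0 : 0 ≤ s) (h1 : s ≤ 1) : volume (zono (xx s)) = 2 * II := by
  have m1 := PiLp.volume_preserving_ofLp (Fin 3)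
  have m2 := volume_preserving_piFinSuccAbove (fun _ : Fin 3 => ℝ) 0
  have m3 := (MeasurePreserving.id (volume : Measure ℝ)).prod (volume_preserving_finTwoArrow ℝ)
  have m := (m3.comp m2).comp m1
  let W : Set (ℝ × (ℝ × ℝ)) := {w | w.2 ∈ sq ∧ lo s w.2 ≤ w.1 ∧ w.1 ≤ hi s w.2}
  have hW : MeasurableSet W := by
    refine (measurable_snd sq_meas).inter (IsClosed.measurableSet ?_)
    have h1 : IsClosed {w : ℝ × (ℝ × ℝ) | lo s w.2 ≤ w.1} :=
      isClosed_le (by unfold lo; fun_prop) (by fun_prop)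
    have h2 : IsClosed {w : ℝ × (ℝ × ℝ) | w.1 ≤ hi s w.2} :=
      isClosed_le (by fun_prop) (by unfold hi; fun_prop)
    exact h1.inter h2
  have e := m.measure_preimage hW.nullMeasurableSet
  have e2 : zono (xx s) = (((Prod.map id (MeasurableEquiv.finTwoArrow (α := ℝ))) ∘
      (MeasurableEquiv.piFinSuccAbove (fun _ : Fin 3 => ℝ) 0)) ∘ WithLp.ofLp) ⁻¹' W := by
    ext z
    rw [mem_iff s h0 h1]
    rfl
  rw [e2, e, Measure.prod_apply_symm hW]
  have e3 : ∀ q : ℝ × ℝ, volume ((fun x => (x, q)) ⁻¹' W) =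
      sq.indicator (fun q => ENNReal.ofReal (1 + s) * ENNReal.ofReal (2 - 2 * |q.1 / √2|) +
        ENNReal.ofReal (1 - s) * ENNReal.ofReal (2 - 2 * |q.2 / √2|)) q := by
    intro q
    by_cases hq : q ∈ sq
    · rw [Set.indicator_of_mem hq]
      have : (fun x => (x, q)) ⁻¹' W = Set.Icc (lo s q) (hi s q) := by
        ext x; simp [W, hq]
      rw [this, Real.volume_Icc, ← ENNReal.ofReal_mul (by linarith),
        ← ENNReal.ofReal_mul (by linarith), ← ENNReal.ofReal_add]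
      · congr 1; simp only [lo, hi]; ring
      · exact mul_nonneg (by linarith) (by linarith [hq.1])
      · exact mul_nonneg (by linarith) (by linarith [hq.2])
    · rw [Set.indicator_of_notMem hq]
      have : (fun x => (x, q)) ⁻¹' W = ∅ := by
        ext x; simp [W, hq]
      rw [this, measure_empty]
  simp only [e3]
  rw [lintegral_indicator sq_meas, lintegral_add_left (by fun_prop),
    lintegral_const_mul _ (by fun_prop), lintegral_const_mul _ (by fun_prop)]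
  have e4 : ∫⁻ q in sq, ENNReal.ofReal (2 - 2 * |q.2 / √2|) = II := by
    have := (Measure.measurePreserving_swap (μ := (volume : Measure ℝ))
      (ν := (volume : Measure ℝ))).setLIntegral_comp_preimage sq_meas
      (f := fun q : ℝ × ℝ => ENNReal.ofReal (2 - 2 * |q.1 / √2|)) (by fun_prop)
    have e5 : Prod.swap ⁻¹' sq = sq := by
      ext q; simp [sq, and_comm]
    rw [e5] at this
    exact this
  rw [e4]
  change ENNReal.ofReal (1 + s) * II + ENNReal.ofReal (1 - s) * II = _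
  rw [← add_mul, ← ENNReal.ofReal_add (by linarith) (by linarith)]
  norm_num

lemma nsq (z : EuclideanSpace ℝ (Fin 3)) : ‖z‖ ^ 2 = z 0 ^ 2 + z 1 ^ 2 + z 2 ^ 2 := by
  simp [EuclideanSpace.norm_sq_eq, Fin.sum_univ_three]

lemma inn (z w : EuclideanSpace ℝ (Fin 3)) :
    inner ℝ z w = z 0 * w 0 + z 1 * w 1 + z 2 * w 2 := by
  simp [PiLp.inner_apply, Fin.sum_univ_three]; ring

lemma sub_ball (s : ℝ) (h0 : 0 ≤ s) (h1 : s ≤ 1 / 4) :
    zono (xx s) ⊆ closedBall !₂[2 * s, 0, 0] 2 := by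
  intro z hz
  obtain ⟨⟨hA, hB⟩, h2, h3⟩ := (mem_iff s h0 (by linarith) z).1 hz
  simp only [lo, hi] at h2 h3
  rw [mem_closedBall, dist_eq_norm]
  apply le_of_pow_le_pow_left₀ (n := 2) (by norm_num) (by norm_num)
  rw [nsq]
  simp only [PiLp.sub_apply, Matrix.cons_val_zero, Matrix.cons_val_one, c2, sub_zero]
  have e : ∀ t : ℝ, t ^ 2 = 2 * |t / √2| ^ 2 := fun t => by
    rw [sq_abs, div_pow, Real.sq_sqrt (by norm_num)]; ring
  rw [e (z 1), e (z 2)]
  set a := |z 1 / √2|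
  set b := |z 2 / √2|
  have ha : 0 ≤ a := abs_nonneg _
  have hb : 0 ≤ b := abs_nonneg _
  have h4 : (z 0 - 2 * s) ^ 2 ≤ ((1 + s) * (1 - a) + (1 - s) * (1 - b)) ^ 2 :=
    sq_le_sq' (by linarith) (by linarith)
  have h5 : (1 + s) ^ 2 ≤ 2 := by nlinarith
  have h6 : (1 - s) ^ 2 ≤ 2 := by nlinarith
  have h7 : (1 + s) * (1 - s) ≤ 1 := by nlinarith
  have p1 : 0 ≤ a * (1 - a) := mul_nonneg ha (by linarith)
  have p2 : 0 ≤ b * (1 - b) := mul_nonneg hb (by linarith)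
  have p3 : 0 ≤ (1 - a) * (1 - b) := mul_nonneg (by linarith) (by linarith)
  have p4 : 0 ≤ a * (1 - b) := mul_nonneg ha (by linarith)
  have p5 : 0 ≤ b * (1 - a) := mul_nonneg hb (by linarith)
  nlinarith [mul_nonneg p1 (sq_nonneg (1 + s)), mul_nonneg p2 (sq_nonneg (1 - s)),
    mul_nonneg p4 (by linarith : 0 ≤ 2 - (1 - s) ^ 2), mul_nonneg p5 (by linarith : 0 ≤ 2 - (1 + s) ^ 2)]

lemma zono_smul (r : ℝ) (p : Fin 4 → EuclideanSpace ℝ (Fin 3)) :
    zono (fun i => r • p i) = r • zono p := by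
  ext z
  constructor
  · rintro ⟨l, hl, rfl⟩
    exact ⟨_, ⟨l, hl, rfl⟩, by simp [smul_sum, smul_comm r]⟩
  · rintro ⟨_, ⟨l, hl, rfl⟩, rfl⟩
    exact ⟨l, hl, by simp [smul_sum, smul_comm r]⟩

lemma two_pts (s : ℝ) : ∃ a ∈ zono (xx s), ∃ b ∈ zono (xx s), a - b = !₂[4, 0, 0] := by
  refine ⟨_, ⟨![1, 1, 0, 0], ?_, rfl⟩, _, ⟨![0, 0, 1, 1], ?_, rfl⟩, ?_⟩
  · intro i; fin_cases i <;> simp
  · intro i; fin_cases i <;> simp
  · obtain ⟨e0, e1, e2⟩ := comb s ![1, 1, 0, 0]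
    obtain ⟨f0, f1, f2⟩ := comb s ![0, 0, 1, 1]
    ext i
    fin_cases i
    · show (∑ i, ![1, 1, 0, 0] i • xx s i) 0 - (∑ i, ![0, 0, 1, 1] i • xx s i) 0 = 4
      rw [e0, f0]; simp [c3, c4]; ring
    · show (∑ i, ![1, 1, 0, 0] i • xx s i) 1 - (∑ i, ![0, 0, 1, 1] i • xx s i) 1 = 0
      rw [e1, f1]; simp
    · show (∑ i, ![1, 1, 0, 0] i • xx s i) 2 - (∑ i, ![0, 0, 1, 1] i • xx s i) 2 = 0
      rw [e2, f2]; simp [c3, c4]

lemma n4 : ‖(!₂[4, 0, 0] : EuclideanSpace ℝ (Fin 3))‖ = 4 := by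
  apply (pow_left_inj₀ (norm_nonneg _) (by norm_num) (two_ne_zero)).1
  rw [nsq]; simp [c2]

lemma cr_eq (s : ℝ) (h0 : 0 ≤ s) (h1 : s ≤ 1 / 4) (r : ℝ) (hr : 0 < r) :
    cr (r • zono (xx s)) = 2 * r := by
  apply IsLeast.csInf_eq
  constructor
  · refine ⟨r • !₂[2 * s, 0, 0], ?_⟩
    rintro _ ⟨z, hz, rfl⟩
    have := sub_ball s h0 h1 hz
    rw [mem_closedBall] at this ⊢
    rw [dist_smul₀, Real.norm_eq_abs, abs_of_pos hr]
    nlinarith
  · rintro R ⟨c, hc⟩
    obtain ⟨a, ha, b, hb, hab⟩ := two_pts s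
    have h2 := hc ⟨a, ha, rfl⟩
    have h3 := hc ⟨b, hb, rfl⟩
    rw [mem_closedBall] at h2 h3
    have h4 := dist_triangle_right (r • a) (r • b) c
    rw [dist_smul₀, Real.norm_eq_abs, abs_of_pos hr, dist_eq_norm a b, hab, n4] at h4
    simp only at h2 h3
    linarith

lemma span_top (s r : ℝ) (hr : 0 < r) (h0 : 0 ≤ s) :
    Submodule.span ℝ (Set.range fun i => r • xx s i) = ⊤ := by
  rw [eq_top_iff]
  intro z _
  have hs : (0 : ℝ) < √2 := by positivity
  have : z = ∑ i, (![(z 0 / (1 + s) + z 1 / √2) / 2 / r, (z 0 / (1 + s) - z 1 / √2) / 2 / r,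
      z 2 / √2 / 2 / r, -(z 2 / √2 / 2 / r)] : Fin 4 → ℝ) i • (r • xx s i) := by
    simp only [smul_smul]
    obtain ⟨e0, e1, e2⟩ := comb s (fun i => (![(z 0 / (1 + s) + z 1 / √2) / 2 / r,
      (z 0 / (1 + s) - z 1 / √2) / 2 / r, z 2 / √2 / 2 / r, -(z 2 / √2 / 2 / r)] : Fin 4 → ℝ) i * r)
    ext i
    fin_cases i
    · refine Eq.trans ?_ e0.symm
      simp only [Matrix.cons_val_zero, Matrix.cons_val_one, c3, c4]
      show z 0 = _
      field_simp; ring
    · refine Eq.trans ?_ e1.symm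
      simp only [Matrix.cons_val_zero, Matrix.cons_val_one]
      show z 1 = _
      field_simp; ring
    · refine Eq.trans ?_ e2.symm
      simp only [c3, c4]
      show z 2 = _
      field_simp; ring
  rw [this]
  exact Submodule.sum_mem _ fun i _ => Submodule.smul_mem _ _ (Submodule.subset_span ⟨i, rfl⟩)

lemma frame (p : Fin 4 → EuclideanSpace ℝ (Fin 3)) (e : ℝ) (he : 0 < e)
    (hd : ∀ i j, i ≠ j → dist (p i) (p j) = e) (hs : ∑ i, p i = 0)
    (u : EuclideanSpace ℝ (Fin 3)) : ∑ i, (inner ℝ (p i) u) ^ 2 = e ^ 2 / 2 * ‖u‖ ^ 2 := by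
  have hd2 : ∀ i j, i ≠ j → inner ℝ (p i) (p i) - 2 * inner ℝ (p i) (p j) + inner ℝ (p j) (p j)
      = e ^ 2 := by
    intro i j h
    rw [← hd i j h, dist_eq_norm, norm_sub_sq_real, real_inner_self_eq_norm_sq,
      real_inner_self_eq_norm_sq]
  have h01 := hd2 0 1 (by decide)
  have h02 := hd2 0 2 (by decide)
  have h03 := hd2 0 3 (by decide)
  have h12 := hd2 1 2 (by decide)
  have h13 := hd2 1 3 (by decide)
  have h23 := hd2 2 3 (by decide)
  let q : Fin 3 → EuclideanSpace ℝ (Fin 3) :=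
    ![p 0 + p 1 - p 2 - p 3, p 0 - p 1 + p 2 - p 3, p 0 - p 1 - p 2 + p 3]
  have hq : ∀ i j, inner ℝ (q i) (q j) = if i = j then 2 * e ^ 2 else 0 := by
    have s10 := real_inner_comm (p 0) (p 1)
    have s20 := real_inner_comm (p 0) (p 2)
    have s30 := real_inner_comm (p 0) (p 3)
    have s21 := real_inner_comm (p 1) (p 2)
    have s31 := real_inner_comm (p 1) (p 3)
    have s32 := real_inner_comm (p 2) (p 3)
    intro i j
    fin_cases i <;> fin_cases j <;>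
      simp only [q, Fin.zero_eta, Fin.mk_one, Fin.reduceFinMk, Matrix.cons_val_zero,
        Matrix.cons_val_one, c2, inner_add_left, inner_add_right, inner_sub_left, inner_sub_right,
        Fin.isValue, if_true, Fin.reduceEq, if_false] <;> linarith
  have hc : 0 < √2 * e := by positivity
  have hon : Orthonormal ℝ (fun i => (√2 * e)⁻¹ • q i) := by
    rw [orthonormal_iff_ite]
    intro i j
    rw [inner_smul_left, inner_smul_right, hq]
    split_ifs
    · simp only [conj_trivial]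
      have : √2 * √2 = 2 := Real.mul_self_sqrt (by norm_num)
      field_simp
      rw [Real.sq_sqrt (by norm_num)]
    · simp
  let b := (basisOfOrthonormalOfCardEqFinrank hon (by simp)).toOrthonormalBasis
    (by simpa using hon)
  have hb := b.sum_sq_inner_right u
  have hb' : ∀ i, b i = (√2 * e)⁻¹ • q i := fun i => by simp [b]
  simp only [hb', inner_smul_left, conj_trivial, Fin.sum_univ_three, q, Matrix.cons_val_zero,
    Matrix.cons_val_one, c2, inner_add_left, inner_sub_left, mul_pow, inv_pow,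
    Real.sq_sqrt (by norm_num : (0 : ℝ) ≤ 2)] at hb
  have h0 : inner ℝ (p 0) u + inner ℝ (p 1) u + inner ℝ (p 2) u + inner ℝ (p 3) u = 0 := by
    rw [← inner_add_left, ← inner_add_left, ← inner_add_left, ← Fin.sum_univ_four, hs]; simp
  rw [Fin.sum_univ_four, ← hb]
  have : inner ℝ (p 3) u = -(inner ℝ (p 0) u + inner ℝ (p 1) u + inner ℝ (p 2) u) := by linarith
  rw [this]
  field_simp
  ring

lemma not_reg (r : ℝ) (hr : 0 < r) : ¬ IsRegular (r • zono (xx (1 / 4))) := by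
  rintro ⟨t, p, e, he, hd, hs, hZ⟩
  have hsum : ∀ u : EuclideanSpace ℝ (Fin 3), ∑ i, inner ℝ (p i) u = 0 := fun u => by
    rw [← sum_inner, hs]; simp
  have hin : ∀ (l : Fin 4 → ℝ) (u : EuclideanSpace ℝ (Fin 3)),
      inner ℝ (∑ i, l i • p i) u = ∑ i, l i * inner ℝ (p i) u := fun l u => by
    simp [sum_inner, inner_smul_left]
  have h1 : 8 * r ^ 2 ≤ e ^ 2 := by
    obtain ⟨a, ha, b, hb, hab⟩ := two_pts (1 / 4)
    have ha' : r • a ∈ t +ᵥ zono p := hZ ▸ ⟨a, ha, rfl⟩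
    have hb' : r • b ∈ t +ᵥ zono p := hZ ▸ ⟨b, hb, rfl⟩
    obtain ⟨_, ⟨l, hl, rfl⟩, h2⟩ := ha'
    obtain ⟨_, ⟨m, hm, rfl⟩, h3⟩ := hb'
    have h4 : ∑ i, l i • p i - ∑ i, m i • p i = r • !₂[4, 0, 0] := by
      rw [← hab, smul_sub, ← h2, ← h3]; simp
    have h5 := congrArg (fun v => inner ℝ v (!₂[1, 0, 0] : EuclideanSpace ℝ (Fin 3))) h4
    simp only [inner_sub_left, hin] at h5
    rw [inner_smul_left, inn] at h5
    have h6 := frame p e he hd hs !₂[1, 0, 0]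
    rw [nsq] at h6
    simp [c2] at h5 h6
    rw [Fin.sum_univ_four] at h6
    rw [Fin.sum_univ_four, Fin.sum_univ_four] at h5
    set a0 := inner ℝ (p 0) (!₂[1, 0, 0] : EuclideanSpace ℝ (Fin 3))
    set a1 := inner ℝ (p 1) (!₂[1, 0, 0] : EuclideanSpace ℝ (Fin 3))
    set a2 := inner ℝ (p 2) (!₂[1, 0, 0] : EuclideanSpace ℝ (Fin 3))
    set a3 := inner ℝ (p 3) (!₂[1, 0, 0] : EuclideanSpace ℝ (Fin 3))
    have k : ∀ (i : Fin 4) (x : ℝ), l i * x - m i * x ≤ |x| := fun i x => by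
      have := hl i
      have := hm i
      rw [← sub_mul]
      refine (le_abs_self _).trans ?_
      rw [abs_mul]
      exact mul_le_of_le_one_left (abs_nonneg _) (abs_le.2 ⟨by linarith, by linarith⟩)
    have h7 : 4 * r ≤ |a0| + |a1| + |a2| + |a3| := by
      linarith [k 0 a0, k 1 a1, k 2 a2, k 3 a3]
    rw [← sq_abs a0, ← sq_abs a1, ← sq_abs a2, ← sq_abs a3] at h6
    nlinarith [sq_nonneg (|a0| - |a1|), sq_nonneg (|a0| - |a2|), sq_nonneg (|a0| - |a3|),
      sq_nonneg (|a1| - |a2|), sq_nonneg (|a1| - |a3|), sq_nonneg (|a2| - |a3|)]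
  let u : EuclideanSpace ℝ (Fin 3) := !₂[2, -(5 / 4) * √2, 3 / 4 * √2]
  have s2 : √2 * √2 = 2 := Real.mul_self_sqrt (by norm_num)
  have hu : ‖u‖ ^ 2 = 33 / 4 := by
    rw [nsq]; simp [u, c2]; nlinarith
  have hw : ∀ z ∈ zono (xx (1 / 4)), -3 ≤ inner ℝ z u ∧ inner ℝ z u ≤ 5 := by
    rintro _ ⟨l, hl, rfl⟩
    obtain ⟨e0, e1, e2⟩ := comb (1 / 4) l
    rw [inn, e0, e1, e2]
    simp only [u, Matrix.cons_val_zero, Matrix.cons_val_one, c2]
    have : ((1 + 1 / 4) * (l 0 + l 1) - (1 - 1 / 4) * (l 2 + l 3)) * 2 +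
        √2 * (l 0 - l 1) * (-(5 / 4) * √2) + √2 * (l 2 - l 3) * (3 / 4 * √2)
        = 5 * l 1 - 3 * l 3 := by
      linear_combination (-(5 / 4) * (l 0 - l 1) + 3 / 4 * (l 2 - l 3)) * s2
    rw [this]
    constructor <;> linarith [hl 1, hl 3]
  have h2 : ∑ i, |inner ℝ (p i) u| ≤ 8 * r := by
    have m1 : t +ᵥ ∑ i, (if 0 ≤ inner ℝ (p i) u then (1 : ℝ) else 0) • p i ∈
        r • zono (xx (1 / 4)) := hZ ▸ ⟨_, ⟨_, fun i => by split_ifs <;> simp, rfl⟩, rfl⟩
    have m2 : t +ᵥ ∑ i, (if 0 ≤ inner ℝ (p i) u then (0 : ℝ) else 1) • p i ∈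
        r • zono (xx (1 / 4)) := hZ ▸ ⟨_, ⟨_, fun i => by split_ifs <;> simp, rfl⟩, rfl⟩
    obtain ⟨a, ha, h3⟩ := m1
    obtain ⟨b, hb, h4⟩ := m2
    have h5 := congrArg (fun v => inner ℝ v u) h3
    have h6 := congrArg (fun v => inner ℝ v u) h4
    simp only [vadd_eq_add, inner_add_left, hin, inner_smul_left, conj_trivial] at h5 h6
    have h7 : ∑ i, |inner ℝ (p i) u| =
        ∑ i, (if 0 ≤ inner ℝ (p i) u then (1 : ℝ) else 0) * inner ℝ (p i) u -
        ∑ i, (if 0 ≤ inner ℝ (p i) u then (0 : ℝ) else 1) * inner ℝ (p i) u := by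
      rw [← sum_sub_distrib]
      refine sum_congr rfl fun i _ => ?_
      split_ifs with h
      · rw [abs_of_nonneg h]; ring
      · rw [abs_of_neg (not_le.1 h)]; ring
    nlinarith [(hw a ha).2, (hw b hb).1]
  have h3 := frame p e he hd hs u
  have h4 := hsum u
  rw [hu] at h3
  rw [Fin.sum_univ_four] at h2 h3 h4
  set a0 := inner ℝ (p 0) u
  set a1 := inner ℝ (p 1) u
  set a2 := inner ℝ (p 2) u
  set a3 := inner ℝ (p 3) u
  have k0 : |a0| ≤ 4 * r := abs_le.2 ⟨by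
    linarith [le_abs_self a1, le_abs_self a2, le_abs_self a3, neg_abs_le a0], by
    linarith [neg_abs_le a1, neg_abs_le a2, neg_abs_le a3, le_abs_self a0]⟩
  have k1 : |a1| ≤ 4 * r := abs_le.2 ⟨by
    linarith [le_abs_self a0, le_abs_self a2, le_abs_self a3, neg_abs_le a1], by
    linarith [neg_abs_le a0, neg_abs_le a2, neg_abs_le a3, le_abs_self a1]⟩
  have k2 : |a2| ≤ 4 * r := abs_le.2 ⟨by
    linarith [le_abs_self a1, le_abs_self a0, le_abs_self a3, neg_abs_le a2], by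
    linarith [neg_abs_le a1, neg_abs_le a0, neg_abs_le a3, le_abs_self a2]⟩
  have k3 : |a3| ≤ 4 * r := abs_le.2 ⟨by
    linarith [le_abs_self a1, le_abs_self a2, le_abs_self a0, neg_abs_le a3], by
    linarith [neg_abs_le a1, neg_abs_le a2, neg_abs_le a0, le_abs_self a3]⟩
  rw [← sq_abs a0, ← sq_abs a1, ← sq_abs a2, ← sq_abs a3] at h3
  nlinarith [abs_nonneg a0, abs_nonneg a1, abs_nonneg a2, abs_nonneg a3,
    mul_le_mul_of_nonneg_left k0 (abs_nonneg a0), mul_le_mul_of_nonneg_left k1 (abs_nonneg a1),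
    mul_le_mul_of_nonneg_left k2 (abs_nonneg a2), mul_le_mul_of_nonneg_left k3 (abs_nonneg a3),
    mul_le_mul_of_nonneg_left h2 hr.le, sq_pos_of_pos hr]

lemma reg (r : ℝ) (hr : 0 < r) : IsRegular (r • zono (xx 0)) := by
  have s2 : √2 * √2 = 2 := Real.mul_self_sqrt (by norm_num)
  refine ⟨0, fun i => r • xx 0 i, r * √8, by positivity, ?_, ?_, by rw [zono_smul]; simp⟩
  · intro i j h
    rw [dist_smul₀, Real.norm_eq_abs, abs_of_pos hr, dist_eq_norm]
    congr 1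
    rw [eq_comm, Real.sqrt_eq_iff_mul_self_eq (by norm_num) (norm_nonneg _), ← pow_two, nsq]
    fin_cases i <;> fin_cases j <;> first | exact absurd rfl h | (simp [xx, c2, c3, c4]; nlinarith)
  · rw [← smul_sum]
    obtain ⟨e0, e1, e2⟩ := comb 0 (fun _ => 1)
    simp only [one_smul] at e0 e1 e2
    have : ∑ i, xx 0 i = 0 := by
      ext i
      fin_cases i
      · exact e0.trans (by simp)
      · exact e1.trans (by simp)
      · exact e2.trans (by simp)
    rw [this, smul_zero]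

theorem result : ∃ Z Zr : Set (EuclideanSpace ℝ (Fin 3)),
    IsRhombic Z ∧ volume Z = 1 ∧ ¬ IsRegular Z ∧
    IsRhombic Zr ∧ volume Zr = 1 ∧ IsRegular Zr ∧ cr Z = cr Zr := by
  have hfin : volume (zono (xx 0)) ≠ ⊤ :=
    ((measure_mono (sub_ball 0 le_rfl (by norm_num))).trans_lt measure_closedBall_lt_top).ne
  have hpos : volume (zono (xx 0)) ≠ 0 := by
    have : ball (0 : EuclideanSpace ℝ (Fin 3)) (1 / 2) ⊆ zono (xx 0) := by
      intro z hz
      rw [mem_ball, dist_zero_right] at hz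
      have hc : ∀ i, |z i| ≤ 1 / 2 := fun i =>
        (by simpa using PiLp.norm_apply_le z i : |z i| ≤ ‖z‖).trans hz.le
      have h1 : (1 : ℝ) ≤ √2 := Real.one_le_sqrt.2 (by norm_num)
      have hd : ∀ i, |z i / √2| ≤ 1 / 2 := fun i => by
        rw [abs_div, abs_of_pos (by linarith : (0 : ℝ) < √2)]
        exact (div_le_self (abs_nonneg _) h1).trans (hc i)
      rw [mem_iff 0 le_rfl (by norm_num)]
      simp only [lo, hi]
      have := abs_le.1 (hc 0)
      refine ⟨⟨by linarith [hd 1], by linarith [hd 2]⟩, by linarith [hd 1, hd 2],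
        by linarith [hd 1, hd 2]⟩
    exact ((measure_ball_pos volume _ (by norm_num)).trans_le (measure_mono this)).ne'
  set V := (volume (zono (xx 0))).toReal with hV
  have hVpos : 0 < V := ENNReal.toReal_pos hpos hfin
  set r : ℝ := (V⁻¹) ^ (1 / 3 : ℝ) with hr
  have hr0 : 0 < r := by positivity
  have hr3 : r ^ 3 = V⁻¹ := by
    rw [hr, ← Real.rpow_natCast, ← Real.rpow_mul (by positivity)]; norm_num
  have hvol : ∀ s : ℝ, 0 ≤ s → s ≤ 1 → volume (r • zono (xx s)) = 1 := by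
    intro s h0 h1
    rw [Measure.addHaar_smul, vol s h0 h1, ← vol 0 le_rfl (by norm_num),
      ← ENNReal.ofReal_toReal hfin, ← hV, ← ENNReal.ofReal_mul (abs_nonneg _)]
    simp only [finrank_euclideanSpace, Fintype.card_fin]
    rw [hr3, abs_of_pos (by positivity), inv_mul_cancel₀ hVpos.ne']
    simp
  have hrh : ∀ s : ℝ, 0 ≤ s → IsRhombic (r • zono (xx s)) := fun s h0 =>
    ⟨0, fun i => r • xx s i, span_top s r hr0 h0, by rw [zono_smul]; simp⟩
  refine ⟨r • zono (xx (1 / 4)), r • zono (xx 0), hrh _ (by norm_num),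
    hvol _ (by norm_num) (by norm_num), not_reg r hr0, hrh _ le_rfl, hvol _ le_rfl (by norm_num),
    reg r hr0, ?_⟩
  rw [cr_eq _ (by norm_num) le_rfl r hr0, cr_eq _ le_rfl (by norm_num) r hr0]

end Pool.Agent.Results.MP_de3f1f_gt.Shift
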